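import Pool.Agent.H66.FA.T

set_option autoImplicit false

namespace Pool.Agent.H5.FA

open Pool.Agent.H66.FA Pool.Agent.H63.Fins

theorem pf_CON (h1 : T_EUL) (h2 : T_INJ) (h3 : T_LIM) : T_CON := by
  intro m B E L hL hE hA hS
  obtain ⟨z₁, hz₁, hu₁, _⟩ := h3 m B E L hL hE hA hS (ee 0) (by simp [ee])
  refine ⟨DD L z₁, fun y hy => ?_⟩
  obtain ⟨z, hz, hu, hd⟩ := h3 m B E L hL hE hA hS y hy
  obtain ⟨c, hc, hcz⟩ := h2 m L hL z₁ z hz₁ hz hu₁ hu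
  have hne : z₁ ≠ 0 := by
    intro h
    rw [h] at hz₁
    simp at hz₁
  rw [← hd, hcz]
  exact ((h1 (m + 1) L hL z₁ hne).2.2.2.2 c hc).2.2

end Pool.Agent.H5.FA
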